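import Pool.Agent.H67.SD

namespace Pool.Agent.Results.MP_c68965_al.Counter

open Pool.Agent.H67.SD

instance : Fact (Nat.Prime 31) := ⟨by norm_num⟩

abbrev F := ZMod 31
abbrev G := Aff (F × F) Fˣ

def act (a b : F) : G →* Equiv.Perm F :=
  @MulAction.toPermHom G F _ (
    { smul := fun g s => a * g.v.1 + b * g.v.2 + g.g * s
      one_smul := fun s => by
        show a * 0 + b * 0 + ((1 : Fˣ) : F) * s = s
        simp
      mul_smul := fun g h s => by
        show a * (g.v.1 + g.g * h.v.1) + b * (g.v.2 + g.g * h.v.2) + ((g.g * h.g : Fˣ) : F) * s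
          = a * g.v.1 + b * g.v.2 + g.g * (a * h.v.1 + b * h.v.2 + h.g * s)
        push_cast
        ring })

theorem act_apply (a b : F) (g : G) (s : F) : act a b g s = a * g.v.1 + b * g.v.2 + g.g * s := rfl

def M (a b t : F) : Subgroup G := (MulAction.stabilizer (Equiv.Perm F) t).comap (act a b)

theorem mem_M (a b t : F) (g : G) : g ∈ M a b t ↔ a * g.v.1 + b * g.v.2 + g.g * t = t := Iff.rfl

theorem coatom_of_prime {Γ : Type} [Group Γ] (H : Subgroup Γ) (h : H.index.Prime) : IsCoatom H := by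
  refine ⟨fun h1 => ?_, fun K hK => ?_⟩
  · rw [h1, Subgroup.index_top] at h
    exact Nat.not_prime_one h
  · have h1 := Subgroup.relIndex_mul_index hK.le
    rcases (Nat.dvd_prime h).1 (Subgroup.index_dvd_of_le hK.le) with h2 | h2
    · exact Subgroup.index_eq_one.1 h2
    · rw [h2] at h1
      have h3 : H.relIndex K = 1 := by
        have := h.pos
        nlinarith [mul_right_cancel₀ this.ne' (h1.trans (one_mul _).symm)]
      exact absurd (Subgroup.relIndex_eq_one.1 h3) (not_le_of_gt hK)

theorem M_index (a b t : F) (h : a = 1 ∨ b = 1) : (M a b t).index = 31 := by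
  letI : MulAction G F := MulAction.compHom F (act a b)
  haveI : MulAction.IsPretransitive G F := ⟨fun x y => by
    rcases h with h | h
    · exact ⟨⟨(y - x, 0), 1⟩, by show act a b _ x = y; simp [act_apply, h]⟩
    · exact ⟨⟨(0, y - x), 1⟩, by show act a b _ x = y; simp [act_apply, h]⟩⟩
  have := MulAction.index_stabilizer_of_transitive G t
  exact this.trans (by simp)

def A : Fin 3 → F := ![1, 0, 1]
def B : Fin 3 → F := ![0, 1, 1]
def T : Fin 3 → F := ![0, 0, 1]

theorem result : ∃ (G : Type) (_ : Group G) (_ : Finite G), Nontrivial G ∧ IsSolvable G ∧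
    ∃ (k : ℕ) (M : Fin k → Subgroup G), 1 ≤ k ∧ (∀ i, IsCoatom (M i)) ∧
      (∀ i j, i ≠ j → ∀ g : G, (M i).map (MulAut.conj g).toMonoidHom ≠ M j) ∧
      ⨅ i, M i = frattini G ∧ k < (Nat.card G).primeFactors.card := by
  have hc : ∀ i, IsCoatom (M (A i) (B i) (T i)) := fun i => coatom_of_prime _ (by
    rw [M_index _ _ _ (by revert i; decide)]; norm_num)
  refine ⟨G, inferInstance, inferInstance, ⟨⟨⟨(1, 0), 1⟩, 1, fun h => ?_⟩⟩, ?_, 3,
    fun i => M (A i) (B i) (T i), by norm_num, hc, ?_, ?_, ?_⟩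
  · have := congrArg (fun g : G => g.v.1) h
    simp at this
  · let ι : Multiplicative (F × F) →* G := MonoidHom.mk' (fun v => ⟨v.toAdd, 1⟩)
      (fun a b => by ext <;> simp)
    refine solvable_of_ker_le_range ι proj fun g hg => ⟨Multiplicative.ofAdd g.v, ?_⟩
    exact Aff.ext rfl (Eq.symm hg)
  · intro i j hij g h
    have h1 : (⟨(B i, -A i), 1⟩ : G) ∈ M (A i) (B i) (T i) := by
      rw [mem_M]; simp [mul_comm]
    have h2 : g * ⟨(B i, -A i), 1⟩ * g⁻¹ ∈ M (A j) (B j) (T j) := by
      exact h.le ⟨_, h1, rfl⟩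
    rw [mem_M] at h2
    simp only [mul_v, mul_g, inv_v, inv_g, mul_one, smul_neg, smul_inv_smul, mul_inv_cancel,
      Units.val_one, one_mul, add_eq_right, Prod.fst_add, Prod.snd_add, Prod.fst_neg, Prod.snd_neg,
      Units.smul_def, Prod.smul_fst, Prod.smul_snd, smul_eq_mul, Units.mul_inv_cancel_left] at h2
    have h3 : (g.g : F) * (A j * B i - B j * A i) = 0 := by linear_combination h2
    have h4 := (mul_eq_zero.1 h3).resolve_left g.g.ne_zero
    have h5 : ∀ i j, i ≠ j → A j * B i - B j * A i ≠ 0 := by decide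
    exact h5 i j hij h4
  · have h0 : ⨅ i, M (A i) (B i) (T i) = ⊥ := by
      rw [eq_bot_iff]
      intro g hg
      rw [Subgroup.mem_iInf] at hg
      have h1 := (mem_M _ _ _ _).1 (hg 0)
      have h2 := (mem_M _ _ _ _).1 (hg 1)
      have h3 := (mem_M _ _ _ _).1 (hg 2)
      simp [A, B, T] at h1 h2 h3
      rw [h1, h2] at h3
      rw [Subgroup.mem_bot]
      ext
      · exact h1
      · exact h2
      · simpa using h3
    exact le_antisymm (h0 ▸ bot_le) (le_iInf fun i => frattini_le_coatom (hc i))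
  · have : Nat.card G = 2 * 3 * 5 * 31 ^ 2 := by
      rw [card_eq, Nat.card_units]
      simp
    rw [this]
    decide +kernel

end Pool.Agent.Results.MP_c68965_al.Counter
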